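import Pool.Agent.Q123.LinQuot

set_option autoImplicit false

namespace Pool.Agent.Results.MP_c1f45e_al.Icosahedron

open MvPolynomial Pool.Agent.H677R3.EdgeReg Pool.Agent.Q123

/-- `G` has no induced subgraph consisting of two disjoint edges -/
def GapFree {V : Type*} (G : SimpleGraph V) : Prop :=
  ∀ a b c d : V, G.Adj a b → G.Adj c d → a ≠ c → a ≠ d → b ≠ c → b ≠ d →
    G.Adj a c ∨ G.Adj a d ∨ G.Adj b c ∨ G.Adj b d

/-- the exponent of the squarefree monomial `x_S` -/
noncomputable def expo {V : Type*} (S : Finset V) : V →₀ ℕ := ∑ v ∈ S, Finsupp.single v 1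

/-- the `t`-connected ideal of `G` -/
noncomputable def conn {V : Type*} (K : Type*) [Field K] (G : SimpleGraph V) (t : ℕ) :
    Ideal (MvPolynomial V K) :=
  Ideal.span {f | ∃ S : Finset V, S.card = t ∧ (G.induce (S : Set V)).Connected ∧
    f = monomial (expo S) 1}

/-- the exponents of the minimal monomial generators of a monomial ideal `I`: the monomial belongs
to `I` but no proper divisor of it does -/
def minGens {V : Type*} {K : Type*} [Field K] (I : Ideal (MvPolynomial V K)) : Set (V →₀ ℕ) :=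
  {u | monomial u (1 : K) ∈ I ∧ ∀ v, v ≤ u → monomial v (1 : K) ∈ I → v = u}

/-- `I` has linear quotients: its minimal monomial generators can be ordered such that the colon
ideals are generated by variables -/
def HasLinearQuotients {V : Type*} {K : Type*} [Field K] (I : Ideal (MvPolynomial V K)) : Prop :=
  ∃ (r : ℕ) (m : Fin r → (V →₀ ℕ)), Function.Injective m ∧ Set.range m = minGens I ∧
    ∀ i : Fin r, 1 ≤ (i : ℕ) → ∃ W : Set V, ∀ g : MvPolynomial V K,
      g ∈ Ideal.span (X '' W) ↔
        g * monomial (m i) 1 ∈ Ideal.span {f | ∃ j : Fin r, j < i ∧ f = monomial (m j) (1 : K)}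

/-- rows of the adjacency matrix of the graph of the icosahedron, as bit masks: `0` and `11` are
the poles, `1,…,5` and `6,…,10` the two rings -/
def rows : List ℕ := [62, 229, 395, 789, 1577, 1107, 3234, 2374, 2700, 3352, 2672, 1984]

/-- adjacency in the graph of the icosahedron -/
def icoAdj (a b : Fin 12) : Bool := (rows.getD a 0).testBit b

theorem ico_symm : ∀ a b : Fin 12, icoAdj a b = icoAdj b a := by decide +kernel

/-- the complement of the graph of the icosahedron -/
def theGraph : SimpleGraph (Fin 12) where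
  Adj a b := a ≠ b ∧ icoAdj a b = false
  symm := ⟨fun a b h => ⟨h.1.symm, by rw [ico_symm]; exact h.2⟩⟩
  loopless := ⟨fun a h => h.1 rfl⟩

theorem adj_iff {a b : Fin 12} : theGraph.Adj a b ↔ a ≠ b ∧ icoAdj a b = false := Iff.rfl

theorem gap : ∀ a b : Fin 12, a ≠ b → icoAdj a b = false → ∀ c : Fin 12, a ≠ c → b ≠ c →
    ∀ d : Fin 12, c ≠ d → icoAdj c d = false → a ≠ d → b ≠ d →
    (icoAdj a c = false ∨ icoAdj a d = false ∨ icoAdj b c = false ∨ icoAdj b d = false) := by
  decide +kernel

theorem gapFree : GapFree theGraph := by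
  intro a b c d hab hcd hac had hbc hbd
  simp only [adj_iff] at *
  rcases gap a b hab.1 hab.2 c hac hbc d hcd.1 hcd.2 had hbd with h | h | h | h
  · exact Or.inl ⟨hac, h⟩
  · exact Or.inr (Or.inl ⟨had, h⟩)
  · exact Or.inr (Or.inr (Or.inl ⟨hbc, h⟩))
  · exact Or.inr (Or.inr (Or.inr ⟨hbd, h⟩))

/-- the triangles of the icosahedron -/
def Tri (T : Finset (Fin 12)) : Prop :=
  T.card = 3 ∧ ∀ a ∈ T, ∀ b ∈ T, a ≠ b → icoAdj a b = true

instance (T : Finset (Fin 12)) : Decidable (Tri T) :=
  inferInstanceAs (Decidable (T.card = 3 ∧ ∀ a ∈ T, ∀ b ∈ T, a ≠ b → icoAdj a b = true))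

/-- the chain of the triangles -/
def zz (T : Finset (Fin 12)) : ZMod 2 := if Tri T then 1 else 0

theorem sg_two (j : Fin 12) (T : Finset (Fin 12)) : sg (ZMod 2) j T = 1 := by
  unfold sg
  rw [show (-1 : ZMod 2) = 1 by decide, one_pow]

theorem even_check : ∀ a b : Fin 12, a ≠ b →
    (Finset.univ.filter fun j : Fin 12 => (j ≠ a ∧ j ≠ b) ∧ icoAdj a b = true ∧
      icoAdj j a = true ∧ icoAdj j b = true).card % 2 = 0 := by
  decide +kernel

theorem zz_cycle (T : Finset (Fin 12)) : cd zz T = 0 := by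
  by_cases hT : T.card = 2
  · obtain ⟨a, b, hab, rfl⟩ := Finset.card_eq_two.1 hT
    have h1 : cd zz {a, b} = ∑ j : Fin 12, if ((j ≠ a ∧ j ≠ b) ∧ icoAdj a b = true ∧
      icoAdj j a = true ∧ icoAdj j b = true) then (1 : ZMod 2) else 0 := by
      unfold cd
      rw [Finset.sum_subset (Finset.subset_univ _) (by
        intro j _ hj
        have hj' : j ∈ ({a, b} : Finset (Fin 12)) := by
          by_contra h
          exact hj (Finset.mem_compl.2 h)
        have h : ¬ Tri (insert j {a, b}) := by
          rintro ⟨h, -⟩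
          rw [Finset.insert_eq_of_mem hj', hT] at h
          omega
        rw [zz, if_neg h, mul_zero])]
      refine Finset.sum_congr rfl fun j _ => ?_
      rw [sg_two, one_mul, zz]
      refine if_congr ?_ rfl rfl
      constructor
      · rintro ⟨h1, h2⟩
        have hja : j ∉ ({a, b} : Finset (Fin 12)) := by
          intro h
          rw [Finset.insert_eq_of_mem h, hT] at h1
          omega
        simp only [Finset.mem_insert, Finset.mem_singleton, not_or] at hja
        refine ⟨hja, h2 a (by simp) b (by simp) hab, h2 j (by simp) a (by simp) hja.1,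
          h2 j (by simp) b (by simp) hja.2⟩
      · rintro ⟨⟨h1, h2⟩, h3, h4, h5⟩
        refine ⟨?_, ?_⟩
        · rw [Finset.card_insert_of_notMem (by simp [h1, h2]), hT]
        · intro x hx y hy hxy
          simp only [Finset.mem_insert, Finset.mem_singleton] at hx hy
          rcases hx with rfl | rfl | rfl <;> rcases hy with rfl | rfl | rfl
          · exact absurd rfl hxy
          · exact h4
          · exact h5
          · rw [ico_symm]; exact h4
          · exact absurd rfl hxy
          · exact h3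
          · rw [ico_symm]; exact h5
          · rw [ico_symm]; exact h3
          · exact absurd rfl hxy
    rw [h1, Finset.sum_boole]
    have h2 := even_check a b hab
    have h3 : (2 : ℕ) ∣ (Finset.univ.filter fun j : Fin 12 => (j ≠ a ∧ j ≠ b) ∧ icoAdj a b = true ∧
      icoAdj j a = true ∧ icoAdj j b = true).card := Nat.dvd_of_mod_eq_zero h2
    exact (ZMod.natCast_eq_zero_iff _ 2).2 h3
  · unfold cd
    refine Finset.sum_eq_zero fun j hj => ?_
    have hj' : j ∉ T := by simpa using hj
    have h : ¬ Tri (insert j T) := by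
      rintro ⟨h, -⟩
      rw [Finset.card_insert_of_notMem hj'] at h
      omega
    rw [zz, if_neg h, mul_zero]

/-- the sets with a path of `G` on three of their elements -/
def HasPath (F : Finset (Fin 12)) : Prop :=
  ∃ a ∈ F, ∃ b ∈ F, ∃ c ∈ F, a ≠ c ∧ theGraph.Adj a b ∧ theGraph.Adj b c

theorem connected_path {a b c : Fin 12} (hab : theGraph.Adj a b)
    (hbc : theGraph.Adj b c) :
    (theGraph.induce (({a, b, c} : Finset (Fin 12)) : Set (Fin 12))).Connected := by
  have hb : b ∈ (({a, b, c} : Finset (Fin 12)) : Set (Fin 12)) := by simp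
  rw [SimpleGraph.connected_iff_exists_forall_reachable]
  refine ⟨⟨b, hb⟩, ?_⟩
  rintro ⟨x, hx⟩
  have hx' : x = a ∨ x = b ∨ x = c := by simpa using hx
  rcases hx' with rfl | rfl | rfl
  · exact (SimpleGraph.Adj.reachable (by
      show theGraph.Adj b x
      exact hab.symm))
  · exact SimpleGraph.Reachable.refl _
  · exact (SimpleGraph.Adj.reachable (by
      show theGraph.Adj b x
      exact hbc))

theorem not_connected_tri {T : Finset (Fin 12)} (hT : Tri T) :
    ¬ (theGraph.induce (T : Set (Fin 12))).Connected := by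
  intro hc
  obtain ⟨a, ha, b, hb, hab⟩ := Finset.one_lt_card.1 (show 1 < T.card by rw [hT.1]; omega)
  obtain ⟨w⟩ := hc.preconnected ⟨a, ha⟩ ⟨b, hb⟩
  cases w with
  | nil => exact hab rfl
  | @cons _ v _ h _ =>
    have h' : theGraph.Adj a v.1 := h
    have := hT.2 a ha v.1 v.2 h'.1
    rw [h'.2] at this
    exact Bool.noConfusion this

section algebra

variable {V : Type*} [DecidableEq V] {K : Type*} [Field K]

theorem expo_apply (S : Finset V) (v : V) : expo S v = if v ∈ S then 1 else 0 := by
  unfold expo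
  rw [Finsupp.finsetSum_apply]
  simp only [Finsupp.single_apply]
  rw [Finset.sum_ite_eq']

theorem expo_le_iff {S T : Finset V} : expo S ≤ expo T ↔ S ⊆ T := by
  constructor
  · intro h v hv
    have := h v
    rw [expo_apply, expo_apply, if_pos hv] at this
    by_contra hne
    rw [if_neg hne] at this
    omega
  · intro h v
    rw [expo_apply, expo_apply]
    by_cases hv : v ∈ S
    · rw [if_pos hv, if_pos (h hv)]
    · rw [if_neg hv]; exact Nat.zero_le _

theorem expo_injective : Function.Injective (expo : Finset V → (V →₀ ℕ)) := by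
  intro S T h
  exact Finset.Subset.antisymm (expo_le_iff.1 h.le) (expo_le_iff.1 h.ge)

omit [DecidableEq V] in
theorem conn_eq (G : SimpleGraph V) (t : ℕ) : conn K G t =
    Ideal.span ((fun s => monomial s (1 : K)) '' {u | ∃ S : Finset V, S.card = t ∧
      (G.induce (S : Set V)).Connected ∧ u = expo S}) := by
  unfold conn
  congr 1
  ext f
  constructor
  · rintro ⟨S, h1, h2, rfl⟩
    exact ⟨_, ⟨S, h1, h2, rfl⟩, rfl⟩
  · rintro ⟨_, ⟨S, h1, h2, rfl⟩, rfl⟩
    exact ⟨S, h1, h2, rfl⟩

omit [DecidableEq V] in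
theorem monomial_mem_span_iff {A : Set (V →₀ ℕ)} {u : V →₀ ℕ} :
    monomial u (1 : K) ∈ Ideal.span ((fun s => monomial s (1 : K)) '' A) ↔ ∃ s ∈ A, s ≤ u := by
  rw [mem_ideal_span_monomial_image, support_monomial_one]
  simp

theorem minGens_conn (G : SimpleGraph V) (t : ℕ) : minGens (conn K G t) =
    {u | ∃ S : Finset V, S.card = t ∧ (G.induce (S : Set V)).Connected ∧ u = expo S} := by
  ext u
  unfold minGens
  rw [conn_eq]
  simp only [Set.mem_ofPred_eq, monomial_mem_span_iff]
  constructor
  · rintro ⟨⟨_, ⟨S, h1, h2, rfl⟩, hle⟩, hmin⟩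
    exact ⟨S, h1, h2, (hmin _ hle ⟨_, ⟨S, h1, h2, rfl⟩, le_rfl⟩).symm⟩
  · rintro ⟨S, h1, h2, rfl⟩
    refine ⟨⟨_, ⟨S, h1, h2, rfl⟩, le_rfl⟩, ?_⟩
    rintro v hv ⟨_, ⟨S', h1', h2', rfl⟩, hle⟩
    have hsub : S' ⊆ S := expo_le_iff.1 (hle.trans hv)
    have heq : S' = S := Finset.eq_of_subset_of_card_le hsub (by rw [h1, h1'])
    subst heq
    exact le_antisymm hv hle

end algebra

/-- the four 3-sets of the cochain, and the three 4-sets -/
theorem path_check1 : ∀ v : Fin 12, v ∉ ({0, 1, 2} : Finset (Fin 12)) → v ≠ 3 → v ≠ 5 → v ≠ 7 →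
    ∃ a ∈ (insert v {0, 1, 2} : Finset (Fin 12)), ∃ b ∈ (insert v {0, 1, 2} : Finset (Fin 12)),
    ∃ c ∈ (insert v {0, 1, 2} : Finset (Fin 12)),
      a ≠ c ∧ (a ≠ b ∧ icoAdj a b = false) ∧ (b ≠ c ∧ icoAdj b c = false) := by
  decide +kernel

theorem path_check2 : ∀ v : Fin 12, v ∉ ({0, 2, 5} : Finset (Fin 12)) → v ≠ 1 →
    ∃ a ∈ (insert v {0, 2, 5} : Finset (Fin 12)), ∃ b ∈ (insert v {0, 2, 5} : Finset (Fin 12)),
    ∃ c ∈ (insert v {0, 2, 5} : Finset (Fin 12)),
      a ≠ c ∧ (a ≠ b ∧ icoAdj a b = false) ∧ (b ≠ c ∧ icoAdj b c = false) := by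
  decide +kernel

theorem path_check3 : ∀ v : Fin 12, v ∉ ({0, 1, 3} : Finset (Fin 12)) → v ≠ 2 →
    ∃ a ∈ (insert v {0, 1, 3} : Finset (Fin 12)), ∃ b ∈ (insert v {0, 1, 3} : Finset (Fin 12)),
    ∃ c ∈ (insert v {0, 1, 3} : Finset (Fin 12)),
      a ≠ c ∧ (a ≠ b ∧ icoAdj a b = false) ∧ (b ≠ c ∧ icoAdj b c = false) := by
  decide +kernel

theorem path_check4 : ∀ v : Fin 12, v ∉ ({0, 1, 7} : Finset (Fin 12)) → v ≠ 2 →
    ∃ a ∈ (insert v {0, 1, 7} : Finset (Fin 12)), ∃ b ∈ (insert v {0, 1, 7} : Finset (Fin 12)),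
    ∃ c ∈ (insert v {0, 1, 7} : Finset (Fin 12)),
      a ≠ c ∧ (a ≠ b ∧ icoAdj a b = false) ∧ (b ≠ c ∧ icoAdj b c = false) := by
  decide +kernel

theorem zz_vals : zz {0, 1, 2} = 1 ∧ zz {0, 2, 5} = 0 ∧ zz {0, 1, 3} = 0 ∧ zz {0, 1, 7} = 0 := by
  decide +kernel

theorem no_chain (y : Finset (Fin 12) → ZMod 2) (hy : ∀ F, HasPath F → y F = 0)
    (hcd : ∀ T, cd y T = zz T) : False := by
  obtain ⟨v1, v2, v3, v4⟩ := zz_vals
  have e1 : cd y {0, 1, 2} = y (insert 3 {0, 1, 2}) + y (insert 5 {0, 1, 2}) +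
      y (insert 7 {0, 1, 2}) := by
    unfold cd
    rw [← Finset.sum_subset (s₁ := {3, 5, 7}) (by decide)]
    · rw [Finset.sum_insert (by decide), Finset.sum_insert (by decide), Finset.sum_singleton]
      simp only [sg_two, one_mul]
      ring
    · intro v hv hv'
      simp only [Finset.mem_insert, Finset.mem_singleton, not_or] at hv'
      rw [hy _ (path_check1 v (by simpa using hv) hv'.1 hv'.2.1 hv'.2.2), mul_zero]
  have e2 : cd y {0, 2, 5} = y (insert 1 {0, 2, 5}) := by
    unfold cd
    rw [← Finset.sum_subset (s₁ := {1}) (by decide)]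
    · rw [Finset.sum_singleton, sg_two, one_mul]
    · intro v hv hv'
      simp only [Finset.mem_singleton] at hv'
      rw [hy _ (path_check2 v (by simpa using hv) hv'), mul_zero]
  have e3 : cd y {0, 1, 3} = y (insert 2 {0, 1, 3}) := by
    unfold cd
    rw [← Finset.sum_subset (s₁ := {2}) (by decide)]
    · rw [Finset.sum_singleton, sg_two, one_mul]
    · intro v hv hv'
      simp only [Finset.mem_singleton] at hv'
      rw [hy _ (path_check3 v (by simpa using hv) hv'), mul_zero]
  have e4 : cd y {0, 1, 7} = y (insert 2 {0, 1, 7}) := by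
    unfold cd
    rw [← Finset.sum_subset (s₁ := {2}) (by decide)]
    · rw [Finset.sum_singleton, sg_two, one_mul]
    · intro v hv hv'
      simp only [Finset.mem_singleton] at hv'
      rw [hy _ (path_check4 v (by simpa using hv) hv'), mul_zero]
  have f1 : (insert 1 {0, 2, 5} : Finset (Fin 12)) = insert 5 {0, 1, 2} := by decide
  have f2 : (insert 2 {0, 1, 3} : Finset (Fin 12)) = insert 3 {0, 1, 2} := by decide
  have f3 : (insert 2 {0, 1, 7} : Finset (Fin 12)) = insert 7 {0, 1, 2} := by decide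
  rw [hcd, v1] at e1
  rw [hcd, v2, f1] at e2
  rw [hcd, v3, f2] at e3
  rw [hcd, v4, f3] at e4
  rw [← e2, ← e3, ← e4] at e1
  revert e1
  decide

theorem not_linear (K : Type*) [Field K] : ¬ HasLinearQuotients (conn K theGraph 3) := by
  classical
  rintro ⟨r, m, -, hrange, hquot⟩
  rw [minGens_conn] at hrange
  have hm : ∀ i, ∃ S : Finset (Fin 12), S.card = 3 ∧
      (theGraph.induce (S : Set (Fin 12))).Connected ∧ m i = expo S := by
    intro i
    have : m i ∈ Set.range m := ⟨i, rfl⟩
    rw [hrange] at this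
    exact this
  choose S hS1 hS2 hS3 using hm
  have hlq : CombLQ S := by
    intro i
    by_cases hi : 1 ≤ (i : ℕ)
    · obtain ⟨W, hW⟩ := hquot i hi
      refine ⟨W, fun F hF => ?_⟩
      have h1 := hW (monomial (expo (F \ S i)) 1)
      have h2 : monomial (expo (F \ S i)) (1 : K) * monomial (m i) 1 = monomial (expo F) 1 := by
        rw [hS3, monomial_mul, mul_one]
        congr 2
        ext v
        rw [Finsupp.add_apply, expo_apply, expo_apply, expo_apply]
        by_cases h3 : v ∈ S i
        · simp [h3, hF h3]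
        · by_cases h4 : v ∈ F
          · simp [h3, h4]
          · simp [h3, h4]
      rw [h2, mem_span_X_image_iff, support_monomial_one] at h1
      have h3 : {f | ∃ j : Fin r, j < i ∧ f = monomial (m j) (1 : K)} =
          (fun s => monomial s (1 : K)) '' {u | ∃ j : Fin r, j < i ∧ u = m j} := by
        ext f
        constructor
        · rintro ⟨j, hj, rfl⟩
          exact ⟨_, ⟨j, hj, rfl⟩, rfl⟩
        · rintro ⟨_, ⟨j, hj, rfl⟩, rfl⟩
          exact ⟨j, hj, rfl⟩
      rw [h3, monomial_mem_span_iff] at h1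
      constructor
      · rintro ⟨j, hj, hjF⟩
        obtain ⟨w, hw, hne⟩ := h1.2 ⟨m j, ⟨j, hj, rfl⟩, by rw [hS3]; exact expo_le_iff.2 hjF⟩ _
          (Finset.mem_singleton_self _)
        rw [expo_apply] at hne
        have h4 : w ∈ F \ S i := by
          by_contra h
          rw [if_neg h] at hne
          exact hne rfl
        rw [Finset.mem_sdiff] at h4
        exact ⟨w, hw, h4⟩
      · rintro ⟨w, hw, hwF, hwS⟩
        obtain ⟨_, ⟨j, hj, rfl⟩, hle⟩ := h1.1 (by
          intro u hu
          rw [Finset.mem_singleton] at hu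
          subst hu
          refine ⟨w, hw, ?_⟩
          rw [expo_apply, if_pos (Finset.mem_sdiff.2 ⟨hwF, hwS⟩)]
          exact one_ne_zero)
        rw [hS3] at hle
        exact ⟨j, hj, expo_le_iff.1 hle⟩
    · refine ⟨∅, fun F _ => ⟨?_, ?_⟩⟩
      · rintro ⟨j, hj, -⟩
        have : (j : ℕ) < i := hj
        omega
      · rintro ⟨w, hw, -⟩
        exact hw.elim
  obtain ⟨y, hy1, hy2⟩ := lq_bound hS1 hlq 0 zz (by
    intro T hT
    have htri : Tri T := by
      by_contra h
      exact hT (by rw [zz, if_neg h])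
    refine ⟨htri.1, fun j hj => ?_⟩
    have : S j = T := Finset.eq_of_subset_of_card_le hj (by rw [htri.1, hS1])
    exact not_connected_tri htri (this ▸ hS2 j)) zz_cycle
  refine no_chain y (fun F hF => ?_) hy2
  by_contra hne
  obtain ⟨a, ha, b, hb, c, hc, hac, hab, hbc⟩ := hF
  have hmem : expo {a, b, c} ∈ Set.range m := by
    rw [hrange]
    refine ⟨{a, b, c}, ?_, connected_path hab hbc, rfl⟩
    rw [Finset.card_insert_of_notMem (by simp [hab.ne, hac]),
      Finset.card_insert_of_notMem (by simp [hbc.ne]), Finset.card_singleton]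
  obtain ⟨j, hj⟩ := hmem
  rw [hS3] at hj
  refine (hy1 F hne).2 j ?_
  rw [expo_injective hj]
  intro x hx
  simp only [Finset.mem_insert, Finset.mem_singleton] at hx
  rcases hx with rfl | rfl | rfl
  · exact ha
  · exact hb
  · exact hc

/-- The complement `G` of the graph of the icosahedron is gap-free, and over no field does the ideal
`conn_3(G)` have linear quotients. -/
theorem result : GapFree theGraph ∧
    ∀ (K : Type) [Field K], ¬ HasLinearQuotients (conn K theGraph 3) :=
  ⟨gapFree, fun K _ => not_linear K⟩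

end Pool.Agent.Results.MP_c1f45e_al.Icosahedron
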